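import Pool.Agent.H8.FM.Free
import Pool.Graph.R_seed8.Results.MP_f94ac9_gt.DiscreteRings

/-!
# Free topological modules over discrete rings: countable products and all their subspaces are paracompact

For a metrizable space `X` and any ring `K` with the discrete topology, the free topological `K`-module on `X` is a countable
union of closed metrizable subspaces, and all subspaces of countable products of such modules (with metrizable factors
allowed as well) are Hausdorff, paracompact and perfectly normal. For one module over the discrete reals the paracompactness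
is question Q1 of `MP_f94ac9_gt`.
-/

set_option autoImplicit false

open Set Filter Topology TopologicalSpace
open Pool.Agent.Results.MP_f94ac9_gt.DiscreteRings (IsTLS IsFree exists_free)

namespace Pool.Agent.Results.MP_f94ac9_gt.CountableProducts

open Pool.Agent.H8.FM

universe u v w

/-- The space `Y` is the free topological module over some ring `K` with the discrete topology on some metrizable
space `X`. -/
def IsFreeModuleSpace (Y : Type w) [TopologicalSpace Y] : Prop :=
  ∃ (K : Type v) (_ : Ring K) (X : Type u) (_ : TopologicalSpace X) (_ : MetrizableSpace X)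
    (_ : AddCommGroup Y) (_ : Module K Y) (i : X → Y), IsFree K X Y i

theorem net_of_free {Y : Type w} [TopologicalSpace Y] (h : IsFreeModuleSpace.{u, v, w} Y) :
    T2Space Y ∧ CompletelyRegularSpace Y ∧ HasNet Y ∧
      ∃ C : ℕ → Set Y, (∀ m, IsClosed (C m) ∧ MetrizableSpace (C m)) ∧ ⋃ m, C m = univ := by
  obtain ⟨K, _, X, _, _, _, _, i, h⟩ := h
  let _ := metrizableSpaceMetric X
  let b := Module.Basis.mk h.indep h.span.ge
  have hb : ⇑b = i := Module.Basis.coe_mk _ _
  have hE : IsTLS K (E b) := ⟨inferInstance, continuous_add, fun r => continuous_const_smul r⟩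
  obtain ⟨F, ⟨hFc, hF⟩, -⟩ := h.univ (E b) hE _ (lip b).continuous
  have e : ∀ z, F z = z := fun z => LinearMap.congr_fun
    (b.ext (f₁ := (F : Y →ₗ[K] E b)) (f₂ := LinearMap.id) fun x => by rw [← hb] at hF; exact hF x) z
  have hg : IsTopologicalAddGroup Y := h.tls.group
  have hsm : ContinuousConstSMul K Y := ⟨h.tls.smul⟩
  have hcr : CompletelyRegularSpace Y := by
    let _ := IsTopologicalAddGroup.rightUniformSpace Y
    infer_instance
  obtain ⟨h1, h2⟩ := free_net b (hb ▸ h.emb.continuous) F hFc e
  exact ⟨h.tls.t2, hcr, h1, h2⟩

theorem net_of_metrizable {Y : Type w} [TopologicalSpace Y] [MetrizableSpace Y] : HasNet Y :=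
  ⟨Y, inferInstance, inferInstance, id, fun _ => univ, continuous_id, fun _ => isClosed_univ,
    fun z U hU => ⟨0, mem_univ z, U, hU, fun _ _ h => h⟩⟩

theorem good_sub {Y : Type w} [TopologicalSpace Y] [T2Space Y] [CompletelyRegularSpace Y] (h : HasNet Y)
    (S : Set Y) : T2Space S ∧ ParacompactSpace S ∧ PerfectlyNormalSpace S :=
  ⟨inferInstance, (h.sub S).para, (h.sub S).perfect⟩

/-- **Free topological modules over discrete rings.** (`IsTLS`, `IsFree`: see `DiscreteRings` of the library.)

1. (question Q1) For every metrizable space `X` the free topological linear space over the discrete reals on `X` exists, and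
   it is Hausdorff and paracompact.
2. Let `Y n`, `n ∈ ℕ`, be spaces each of which is metrizable or the free topological module over some discrete ring on some
   metrizable space. Then every subspace of the product of the `Y n` is Hausdorff, paracompact and perfectly normal.
3. In particular this holds for the subspaces of one free topological module `Y` over a discrete ring on a metrizable space;
   moreover `Y` is the union of countably many closed metrizable subspaces.
4. These free modules exist for all nontrivial rings and all metrizable spaces. -/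
theorem result :
    (∀ (X : Type u) [TopologicalSpace X] [MetrizableSpace X],
      (∃ (L : Type u) (_ : AddCommGroup L) (_ : Module ℝ L) (_ : TopologicalSpace L) (i : X → L),
        IsFree ℝ X L i) ∧
      ∀ (L : Type w) [AddCommGroup L] [Module ℝ L] [TopologicalSpace L] (i : X → L),
        IsFree ℝ X L i → T2Space L ∧ ParacompactSpace L) ∧
    (∀ (Y : ℕ → Type w) [∀ n, TopologicalSpace (Y n)],
      (∀ n, MetrizableSpace (Y n) ∨ IsFreeModuleSpace.{u, v, w} (Y n)) →
      ∀ S : Set (∀ n, Y n), T2Space S ∧ ParacompactSpace S ∧ PerfectlyNormalSpace S) ∧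
    (∀ (Y : Type w) [TopologicalSpace Y], IsFreeModuleSpace.{u, v, w} Y →
      (∀ S : Set Y, T2Space S ∧ ParacompactSpace S ∧ PerfectlyNormalSpace S) ∧
      ∃ C : ℕ → Set Y, (∀ m, IsClosed (C m) ∧ MetrizableSpace (C m)) ∧ ⋃ m, C m = univ) ∧
    ∀ (K : Type v) [Ring K] [Nontrivial K] (X : Type u) [TopologicalSpace X] [MetrizableSpace X],
      ∃ (L : Type (max u v)) (_ : AddCommGroup L) (_ : Module K L) (_ : TopologicalSpace L) (i : X → L),
        IsFree K X L i := by
  refine ⟨?_, ?_, ?_, fun K _ _ X _ _ => exists_free K X⟩
  · intro X _ _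
    refine ⟨exists_free ℝ X, ?_⟩
    intro L _ _ _ i h
    obtain ⟨h1, h2, h3, -⟩ := net_of_free.{u, 0, w} (Y := L) ⟨ℝ, inferInstance, X, inferInstance, inferInstance,
      inferInstance, inferInstance, i, h⟩
    exact ⟨h1, h3.para⟩
  · intro Y _ h S
    have h1 : ∀ n, T2Space (Y n) ∧ CompletelyRegularSpace (Y n) ∧ HasNet (Y n) := by
      intro n
      rcases h n with h | h
      · exact ⟨inferInstance, inferInstance, net_of_metrizable⟩
      · obtain ⟨h1, h2, h3, -⟩ := net_of_free h
        exact ⟨h1, h2, h3⟩
    have h2 : ∀ n, T2Space (Y n) := fun n => (h1 n).1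
    have h3 : ∀ n, CompletelyRegularSpace (Y n) := fun n => (h1 n).2.1
    exact good_sub (hasNet_pi fun n => (h1 n).2.2) S
  · intro Y _ h
    obtain ⟨h1, h2, h3, h4⟩ := net_of_free h
    exact ⟨fun S => good_sub h3 S, h4⟩

end Pool.Agent.Results.MP_f94ac9_gt.CountableProducts
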